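import Mathlib

set_option autoImplicit false

namespace Pool.Agent.H.MP_eea557_ag

open MvPolynomial Finset Matrix

variable {K : Type} [Field K] {l : ℕ}

/-- the module of logarithmic derivations, a derivation being its vector of coefficients -/
def DA {ι : Type} (α : ι → MvPolynomial (Fin l) K) :
    Submodule (MvPolynomial (Fin l) K) (Fin l → MvPolynomial (Fin l) K) where
  carrier := {v | ∀ H, α H ∣ ∑ j, v j * pderiv j (α H)}
  zero_mem' H := by simp
  add_mem' {a b} ha hb H := by
    simpa only [Pi.add_apply, add_mul, sum_add_distrib] using dvd_add (ha H) (hb H)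
  smul_mem' c a ha H := by
    simpa only [Pi.smul_apply, smul_eq_mul, mul_assoc, ← mul_sum] using (ha H).mul_left c

theorem top_mul {p q : MvPolynomial (Fin l) K} {d : ℕ} (h : (p * q).IsHomogeneous d)
    (h0 : p * q ≠ 0) :
    homogeneousComponent p.totalDegree p * homogeneousComponent q.totalDegree q = p * q := by
  have e : p.totalDegree + q.totalDegree = d := by
    rw [← totalDegree_mul_of_isDomain (left_ne_zero_of_mul h0) (right_ne_zero_of_mul h0),
      h.totalDegree h0]
  conv_rhs => rw [← homogeneousComponent_eq_self h, ← sum_homogeneousComponent p,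
    ← sum_homogeneousComponent q, sum_mul_sum, map_sum]
  have c (i j : ℕ) : homogeneousComponent d (homogeneousComponent i p * homogeneousComponent j q)
      = if d = i + j then homogeneousComponent i p * homogeneousComponent j q else 0 :=
    homogeneousComponent_of_mem ((homogeneousComponent_isHomogeneous i p).mul
      (homogeneousComponent_isHomogeneous j q))
  simp only [map_sum, c]
  rw [sum_eq_single_of_mem p.totalDegree (by simp), sum_eq_single_of_mem q.totalDegree (by simp),
    if_pos e.symm]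
  · intro j hj hn
    rw [if_neg (by omega)]
  · intro i hi hn
    refine sum_eq_zero fun j hj => if_neg ?_
    simp only [mem_range] at hi hj
    omega

theorem lin {α : MvPolynomial (Fin l) K} (h : α.IsHomogeneous 1) (h0 : α ≠ 0) :
    ∃ (j0 : Fin l) (π : MvPolynomial (Fin l) K →ₐ[K] MvPolynomial (Fin l) K),
      IsUnit (pderiv j0 α) ∧ (∀ f, π f = 0 ↔ α ∣ f) ∧ (∀ f, α ∣ f - π f) ∧
      ∀ f d, f.IsHomogeneous d → (π f).IsHomogeneous d := by
  classical
  have e : ∑ j, X j * pderiv j α = α := by simpa using h.sum_X_mul_pderiv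
  have c : ∀ j, ∃ c : K, pderiv j α = C c := fun j =>
    ⟨_, totalDegree_eq_zero_iff_eq_C.1 ((totalDegree_zero_iff_isHomogeneous _).2 h.pderiv)⟩
  choose c hc using c
  obtain ⟨j0, hj⟩ : ∃ j, c j ≠ 0 := by
    by_contra hn
    push Not at hn
    apply h0
    rw [← e]
    simp [hc, hn]
  let π : MvPolynomial (Fin l) K →ₐ[K] MvPolynomial (Fin l) K :=
    aeval fun j => X j - if j = j0 then C (c j0)⁻¹ * α else 0
  have a : π α = 0 := by
    conv_lhs => rw [← e]
    simp only [π, map_sum, map_mul, hc, aeval_X, aeval_C, algebraMap_eq, sub_mul, sum_sub_distrib,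
      ite_mul, zero_mul, sum_ite_eq', mem_univ, if_true]
    simp only [← hc, e]
    rw [hc, mul_right_comm, ← map_mul, inv_mul_cancel₀ hj, map_one, one_mul, sub_self]
  have b : ∀ f, α ∣ f - π f := by
    intro f
    induction f using MvPolynomial.induction_on with
    | C a => simp [π]
    | add p q hp hq => convert dvd_add hp hq using 1; rw [map_add]; ring
    | mul_X p j hp =>
      have : α ∣ X j - π (X j) := by
        simp only [π, aeval_X, sub_sub_cancel]
        split_ifs <;> simp
      convert dvd_add (hp.mul_right (X j)) (this.mul_left (π p)) using 1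
      rw [map_mul]
      ring
  refine ⟨j0, π, by rw [hc]; exact (IsUnit.mk0 _ hj).map _, fun f => ⟨fun z => ?_, ?_⟩, b, ?_⟩
  · simpa [z] using b f
  · rintro ⟨g, rfl⟩
    rw [map_mul, a, zero_mul]
  · intro f d hf
    have := hf.aeval (n := 1) (fun j => X j - if j = j0 then C (c j0)⁻¹ * α else 0) fun j => by
      refine (isHomogeneous_X K j).sub ?_
      split_ifs
      · exact h.C_mul _
      · exact isHomogeneous_zero _ _ _
    rwa [one_mul] at this

theorem lin_prime {α : MvPolynomial (Fin l) K} (h : α.IsHomogeneous 1) (h0 : α ≠ 0) :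
    Prime α := by
  obtain ⟨-, π, -, a, -⟩ := lin h h0
  refine ⟨h0, fun u => ?_, fun x y b => ?_⟩
  · simpa using (a 1).2 u.dvd
  · rwa [← a, map_mul, mul_eq_zero, a, a] at b

theorem rank_one {R : Type} [CommRing R] [IsDomain R] {α : R} (hα : Prime α)
    (N : Matrix (Fin l) (Fin l) R) (hN : ¬ α * α ∣ N.det) (u v a b : Fin l → R)
    (hu : ∑ i, u i • N i = α • a) (hv : ∑ i, v i • N i = α • b) (j : Fin l) (hj : ¬ α ∣ v j)
    (i : Fin l) : α ∣ v j * u i - u j * v i := by
  by_cases hij : i = j
  · subst hij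
    simp [mul_comm]
  have e1 := det_updateRow_sum N j v
  have e2 := det_updateRow_sum (N.updateRow j (∑ k, v k • N k)) i fun k => v j * u k - u j * v k
  have e3 : ∑ k, (v j * u k - u j * v k) • N.updateRow j (∑ k, v k • N k) k =
      α • (v j • a - u j • b) := by
    have : ∀ k, (v j * u k - u j * v k) • N.updateRow j (∑ k, v k • N k) k =
        v j • u k • N k - u j • v k • N k := fun k => by
      by_cases hk : k = j
      · subst hk
        simp [mul_comm, smul_smul]
      · rw [updateRow_ne hk, sub_smul, mul_smul, mul_smul]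
    simp only [this]
    simp only [sum_sub_distrib, ← smul_sum, hu, hv, smul_sub, smul_comm α]
  rw [e3, e1, hv, det_updateRow_smul, updateRow_comm _ (Ne.symm hij), det_updateRow_smul,
    smul_eq_mul, smul_eq_mul, ← mul_assoc, ← mul_assoc] at e2
  by_contra hn
  apply hN
  have c : ¬ α ∣ (v j * u i - u j * v i) * v j := fun c => (hα.dvd_or_dvd c).elim hn hj
  rw [← sq] at e2 ⊢
  exact hα.pow_dvd_of_dvd_mul_left 2 c ⟨_, e2.symm⟩

section

variable {ι : Type} [Fintype ι] {α : ι → MvPolynomial (Fin l) K}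
  (h1 : ∀ H, (α H).IsHomogeneous 1 ∧ α H ≠ 0) (h2 : Pairwise fun H H' => ¬ Associated (α H) (α H'))
include h1 h2

omit h1 h2 in
theorem det_col (N : Matrix (Fin l) (Fin l) (MvPolynomial (Fin l) K)) (a : MvPolynomial (Fin l) K)
    (j : Fin l) (w : Fin l → MvPolynomial (Fin l) K)
    (hw : ∀ i, ∑ j, N i j * pderiv j a = a * w i) :
    pderiv j a * N.det = a * (N.updateCol j w).det := by
  have e := det_updateCol_sum N j fun k => pderiv k a
  simp only [smul_eq_mul, mul_comm (pderiv _ a) (N _ _), hw] at e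
  rw [← e, ← det_updateCol_smul]
  rfl

theorem Q_dvd (N : Matrix (Fin l) (Fin l) (MvPolynomial (Fin l) K)) (hN : ∀ i, N i ∈ DA α) :
    ∏ H, α H ∣ N.det := by
  have p := fun H => lin_prime (h1 H).1 (h1 H).2
  refine Fintype.prod_dvd_of_isRelPrime (fun H H' hne => ?_) fun H => ?_
  · exact (p H).irreducible.isRelPrime_iff_not_dvd.2 fun d =>
      h2 hne ((p H).associated_of_dvd (p H') d)
  · obtain ⟨j, -, u, -⟩ := lin (h1 H).1 (h1 H).2
    choose w hw using fun i => hN i H
    exact u.dvd_mul_left.1 ⟨_, det_col N _ j w hw⟩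

theorem Q_sq (a : MvPolynomial (Fin l) K) (ha : Prime a) : ¬ a * a ∣ ∏ H, α H := by
  classical
  have p := fun H => lin_prime (h1 H).1 (h1 H).2
  intro d
  obtain ⟨H, -, hH⟩ := (ha.dvd_finset_prod_iff _).1 ((dvd_mul_right a a).trans d)
  have s := ha.associated_of_dvd (p H) hH
  rw [← mul_prod_erase _ _ (mem_univ H), ← s.symm.mul_right _ |>.dvd_iff_dvd_right.symm,
    mul_dvd_mul_iff_left ha.ne_zero] at d
  obtain ⟨G, hG, e⟩ := (ha.dvd_finset_prod_iff _).1 d
  exact h2 (ne_of_mem_erase hG) ((ha.associated_of_dvd (p G) e).symm.trans s)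

theorem tau (N : Matrix (Fin l) (Fin l) (MvPolynomial (Fin l) K)) (hN : ∀ i, N i ∈ DA α)
    (a : MvPolynomial (Fin l) K) (ha : a.IsHomogeneous 1) (a0 : a ≠ 0)
    (hd : Associated N.det (a * ∏ H, α H)) :
    ∃ τ : (Fin l → MvPolynomial (Fin l) K) → Fin l → MvPolynomial (Fin l) K,
      ¬ a * a ∣ (Matrix.of fun i => τ (N i)).det ∧ ∀ u : Fin l → MvPolynomial (Fin l) K,
        ∀ φ ∈ DA α, ∑ i, u i • N i = a • φ → ∑ i, u i • τ (N i) = a • τ φ := by
  classical
  have pa := lin_prime ha a0
  by_cases h : a ∣ ∏ H, α H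
  swap
  · refine ⟨id, fun d => h ?_, fun _ _ _ e => e⟩
    exact (mul_dvd_mul_iff_left a0).1 (d.trans hd.dvd)
  obtain ⟨H, -, hH⟩ := (pa.dvd_finset_prod_iff _).1 h
  obtain ⟨j, -, u, -⟩ := lin (h1 H).1 (h1 H).2
  have : ∀ v : Fin l → MvPolynomial (Fin l) K, ∃ w, v ∈ DA α →
      ∑ j, v j * pderiv j (α H) = α H * w := fun v => by
    by_cases hv : v ∈ DA α
    · exact (hv H).imp fun _ e _ => e
    · exact ⟨0, fun c => (hv c).elim⟩
  choose w hw using this
  refine ⟨fun v => Function.update v j (w v), fun d => ?_, fun c φ hφ e => ?_⟩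
  · have e := det_col N _ j (fun i => w (N i)) fun i => hw _ (hN i)
    apply Q_sq h1 h2 a pa
    have d2 : α H * (a * a) ∣ a * ∏ H, α H :=
      ((mul_dvd_mul_left _ d).trans (u.dvd_mul_left.1 ⟨1, by rw [e, mul_one]; rfl⟩)).trans hd.dvd
    exact (mul_dvd_mul_iff_left a0).1 ((mul_dvd_mul_right hH _).trans d2)
  · funext k
    by_cases hk : k = j
    · subst hk
      apply mul_left_cancel₀ (h1 H).2
      have := congrArg (fun v : Fin l → MvPolynomial (Fin l) K => ∑ j, v j * pderiv j (α H)) e
      simp only [Finset.sum_apply, Pi.smul_apply, smul_eq_mul, sum_mul, mul_assoc] at this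
      rw [sum_comm] at this
      simp only [← mul_sum, hw _ (hN _), hw _ hφ] at this
      simp only [Finset.sum_apply, Pi.smul_apply, smul_eq_mul, Function.update_self, mul_sum,
        mul_left_comm (α H), this]
    · simpa [hk] using congrFun e k

end

end Pool.Agent.H.MP_eea557_ag
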