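import Pool.Agent.H.MP_eea557_ag.A

set_option autoImplicit false

namespace Pool.Agent.H.MP_eea557_ag

open MvPolynomial Finset Matrix

variable {K : Type} [Field K] {l : ℕ} {ι : Type} [Fintype ι] {α : ι → MvPolynomial (Fin l) K}
  (h1 : ∀ H, (α H).IsHomogeneous 1 ∧ α H ≠ 0) (h2 : Pairwise fun H H' => ¬ Associated (α H) (α H'))
  {θ : Matrix (Fin (l + 1)) (Fin l) (MvPolynomial (Fin l) K)}
  {g : Fin (l + 1) → MvPolynomial (Fin l) K}
  (hg : ∀ i : Fin (l + 1),
    (-1) ^ (i.1 + 1) * (θ.submatrix i.succAbove id).det = g i * ∏ H, α H)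
include h1 hg

theorem rel : ∑ i, g i • θ i = 0 := by
  funext j
  have q : ∏ H, α H ≠ 0 := prod_ne_zero_iff.2 fun H _ => (h1 H).2
  apply mul_left_cancel₀ q
  have e := det_succ_column_zero (Matrix.of fun i => Fin.cons (θ i j) (θ i) :
    Matrix (Fin (l + 1)) (Fin (l + 1)) (MvPolynomial (Fin l) K))
  rw [det_zero_of_column_eq (Fin.succ_ne_zero j) (fun _ => rfl)] at e
  rw [Pi.zero_apply, mul_zero, Finset.sum_apply, mul_sum, ← neg_eq_zero, ← sum_neg_distrib, e]
  refine sum_congr rfl fun i _ => ?_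
  change -(_ * (g i * θ i j)) = (-1) ^ i.1 * θ i j * (θ.submatrix i.succAbove id).det
  linear_combination θ i j * hg i

theorem g_hom (hh : ∀ i, ∃ d, ∀ j, (θ i j).IsHomogeneous d) (i : Fin (l + 1)) :
    (g i).IsHomogeneous (g i).totalDegree := by
  classical
  choose d hd using hh
  by_cases h0 : g i = 0
  · rw [h0]
    exact isHomogeneous_zero _ _ _
  have q : ∏ H, α H ≠ 0 := prod_ne_zero_iff.2 fun H _ => (h1 H).2
  have a : (g i * ∏ H, α H).IsHomogeneous (∑ k, d (i.succAbove k)) := by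
    rw [← hg, det_apply']
    have s : ∀ n : ℤ, (n : MvPolynomial (Fin l) K).IsHomogeneous 0 := fun n => by
      simpa using isHomogeneous_C (Fin l) (n : K)
    have := (s ((-1) ^ (i.1 + 1))).mul (IsHomogeneous.sum univ _ _ fun (σ : Equiv.Perm (Fin l)) _ =>
      ((s (Equiv.Perm.sign σ)).mul (IsHomogeneous.prod univ _ _
        fun k _ => hd (i.succAbove (σ k)) k) : IsHomogeneous _ (0 + ∑ k, d (i.succAbove (σ k))))
        |> fun z => (by rwa [Equiv.sum_comp σ fun k => d (i.succAbove k)] at z))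
    simpa using this
  have b := IsHomogeneous.prod univ α (fun _ => 1) fun H _ => (h1 H).1
  have c := top_mul a (mul_ne_zero h0 q)
  rw [b.totalDegree q, homogeneousComponent_eq_self b] at c
  rw [← mul_right_cancel₀ q c, (homogeneousComponent_isHomogeneous _ _).totalDegree
    (by rwa [mul_right_cancel₀ q c])]
  exact homogeneousComponent_isHomogeneous _ _

include h2

theorem gen (hθ : ∀ i, θ i ∈ DA α) (a0 : g (Fin.last l) ≠ 0)
    (ha : (g (Fin.last l)).IsHomogeneous 1) (hp : ∀ i : Fin l, ∃ d, (g i.castSucc).IsHomogeneous d)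
    (hn : ¬ ∃ h d, 0 < d ∧ h.IsHomogeneous d ∧
      ∀ i : Fin l, g i.castSucc ∈ Ideal.span {h, g (Fin.last l)})
    (φ : Fin l → MvPolynomial (Fin l) K) (hφ : φ ∈ DA α) :
    φ ∈ Submodule.span (MvPolynomial (Fin l) K) (Set.range θ) := by
  classical
  set a := g (Fin.last l) with had
  let N : Matrix (Fin l) (Fin l) (MvPolynomial (Fin l) K) := θ.submatrix Fin.castSucc id
  have q : ∏ H, α H ≠ 0 := prod_ne_zero_iff.2 fun H _ => (h1 H).2
  have hN : (-1) ^ (l + 1) * N.det = a * ∏ H, α H := by simpa using hg (Fin.last l)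
  have r : ∑ i : Fin l, g i.castSucc • N i = a • -θ (Fin.last l) := by
    have := rel h1 hg
    rw [Fin.sum_univ_castSucc, add_eq_zero_iff_eq_neg] at this
    rw [smul_neg]
    exact this
  choose c hc using fun i => Q_dvd h1 h2 (N.updateRow i φ) fun k => by
    by_cases hk : k = i
    · rw [hk, updateRow_self]
      exact hφ
    · rw [updateRow_ne hk]
      exact hθ _
  have cr : ∑ i, ((-1) ^ (l + 1) * c i) • N i = a • φ := by
    apply smul_right_injective _ q
    have := mulVec_cramer Nᵀ φ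
    rw [mulVec_transpose, vecMul_eq_sum, det_transpose] at this
    simp only [cramer_transpose_apply, hc] at this
    dsimp only
    rw [smul_smul, mul_comm _ a, ← hN, mul_smul, ← this, smul_sum, smul_sum]
    refine sum_congr rfl fun i _ => ?_
    rw [smul_smul, smul_smul, mul_left_comm]
  obtain ⟨τ, t1, t2⟩ := tau h1 h2 N (fun i => hθ _) a ha a0 (by
    rw [← hN]
    exact (associated_unit_mul_right _ _ (isUnit_one.neg.pow _)))
  obtain ⟨-, π, -, p1, p2, p3⟩ := lin ha a0
  obtain ⟨j, hj⟩ : ∃ j : Fin l, ¬ a ∣ g j.castSucc := by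
    by_contra z
    push Not at z
    exact hn ⟨a, 1, one_pos, ha, fun i => by simpa [Ideal.mem_span_singleton] using z i⟩
  set u : Fin l → MvPolynomial (Fin l) K := fun i => (-1) ^ (l + 1) * c i
  have k := rank_one (lin_prime ha a0) _ t1 u _ _ _ (t2 u φ hφ cr)
    (t2 _ _ (neg_mem (hθ _)) r) j hj
  simp only [← p1, map_sub, map_mul, sub_eq_zero] at k hj
  obtain ⟨lam, hl⟩ : π (g j.castSucc) ∣ π (u j) := by
    obtain ⟨G, y, z, co, e1, e2⟩ :=
      UniqueFactorizationMonoid.exists_reduced_factors _ hj (π (u j))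
    have z0 : z ≠ 0 := left_ne_zero_of_mul (e1 ▸ hj)
    have dG : ∀ i : Fin l, G ∣ π (g i.castSucc) := fun i => co.dvd_of_dvd_mul_left
      ⟨π (u i), mul_left_cancel₀ z0 (by rw [← mul_assoc, ← mul_assoc, e1, e2, k i])⟩
    have G0 : G ≠ 0 := right_ne_zero_of_mul (e1 ▸ hj)
    have uG : IsUnit G := by
      by_contra nu
      refine hn ⟨homogeneousComponent G.totalDegree G, G.totalDegree, ?_,
        homogeneousComponent_isHomogeneous _ _, fun i => ?_⟩
      · by_contra z
        have e := totalDegree_eq_zero_iff_eq_C.1 (Nat.eq_zero_of_not_pos z)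
        rw [e] at nu G0
        exact nu ((IsUnit.mk0 _ (C_ne_zero.1 G0)).map C)
      · obtain ⟨d, hd⟩ := hp i
        obtain ⟨w, hw⟩ := dG i
        obtain ⟨y, hy⟩ := p2 (g i.castSucc)
        rw [Ideal.mem_span_pair]
        by_cases z : G * w = 0
        · exact ⟨0, y, by linear_combination -hy - hw - z⟩
        · exact ⟨homogeneousComponent w.totalDegree w, y, by
            linear_combination top_mul (hw ▸ p3 _ d hd) z - hy - hw⟩
    rw [← e1, ← e2]
    exact mul_dvd_mul_left _ uG.dvd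
  have m : ∀ i, a ∣ u i - lam * g i.castSucc := fun i => by
    have e : π (u i) = lam * π (g i.castSucc) :=
      mul_left_cancel₀ hj (by rw [k i, hl, mul_assoc])
    convert dvd_sub (p2 (u i)) ((p2 (g i.castSucc)).mul_left lam) using 1
    rw [e]
    ring
  choose w hw using m
  have e : φ = ∑ i, w i • N i - lam • θ (Fin.last l) := by
    apply smul_right_injective _ a0
    dsimp only
    rw [smul_sub, smul_sum]
    simp only [smul_smul, ← hw, sub_smul, sum_sub_distrib, show ∑ i, u i • N i = a • φ from cr]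
    simp only [mul_smul, ← smul_sum, r]
    module
  rw [e]
  exact sub_mem (Submodule.sum_mem _ fun i _ => Submodule.smul_mem _ _
    (Submodule.subset_span ⟨_, rfl⟩)) (Submodule.smul_mem _ _ (Submodule.subset_span ⟨_, rfl⟩))

omit h2 in
theorem syz (a0 : g (Fin.last l) ≠ 0) (ha : (g (Fin.last l)).IsHomogeneous 1) (j : Fin l)
    (hj : ¬ g (Fin.last l) ∣ g j.castSucc) (f : Fin (l + 1) → MvPolynomial (Fin l) K)
    (hf : ∑ i, f i • θ i = 0) : ∃ c : MvPolynomial (Fin l) K, f = c • g := by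
  classical
  have q : ∏ H, α H ≠ 0 := prod_ne_zero_iff.2 fun H _ => (h1 H).2
  have hN : (θ.submatrix Fin.castSucc id).det ≠ 0 := fun z => by
    have := hg (Fin.last l)
    simp [z, a0, q] at this
  have e : (fun i : Fin l => g (Fin.last l) * f i.castSucc - f (Fin.last l) * g i.castSucc) = 0 := by
    refine eq_zero_of_vecMul_eq_zero hN ?_
    have r := rel h1 hg
    rw [Fin.sum_univ_castSucc, add_eq_zero_iff_eq_neg] at r hf
    rw [vecMul_eq_sum]
    change ∑ i : Fin l, _ • θ i.castSucc = 0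
    simp only [sub_smul, mul_smul, sum_sub_distrib, ← smul_sum, r, hf]
    module
  have e' := fun i => sub_eq_zero.1 (congrFun e i)
  obtain ⟨c, hc⟩ := ((lin_prime ha a0).dvd_or_dvd ⟨_, (e' j).symm⟩).resolve_right hj
  refine ⟨c, funext fun i => ?_⟩
  rw [Pi.smul_apply, smul_eq_mul]
  refine Fin.lastCases (by rw [hc, mul_comm]) (fun i => mul_left_cancel₀ a0 ?_) i
  rw [e', hc, mul_assoc]

omit h2 hg in
theorem nodiv (hθ : ∀ i, θ i ∈ DA α)
    (hs : Submodule.span (MvPolynomial (Fin l) K) (Set.range θ) = DA α)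
    (hr : ∀ f : Fin (l + 1) → MvPolynomial (Fin l) K,
      ∑ i, f i • θ i = 0 ↔ ∃ c : MvPolynomial (Fin l) K, f = c • g)
    (a0 : g (Fin.last l) ≠ 0) (ha : (g (Fin.last l)).IsHomogeneous 1) :
    ¬ ∃ h d, 0 < d ∧ h.IsHomogeneous d ∧
      ∀ i : Fin l, g i.castSucc ∈ Ideal.span {h, g (Fin.last l)} := by
  rintro ⟨h, d, hd, hh, H⟩
  simp only [Ideal.mem_span_pair] at H
  choose x y e using H
  set a := g (Fin.last l) with had
  have pa := lin_prime ha a0
  have r := (hr g).2 ⟨1, (one_smul _ _).symm⟩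
  set ζ := ∑ i : Fin l, y i • θ i.castSucc + θ (Fin.last l) with hζ
  set ξ := ∑ i : Fin l, x i • θ i.castSucc with hξ
  have r2 : h • ξ + a • ζ = 0 := by
    rw [← r, Fin.sum_univ_castSucc, hζ, hξ, smul_add, smul_sum, smul_sum, ← add_assoc,
      ← sum_add_distrib]
    simp only [← e, add_smul, smul_smul, mul_comm, had]
  have m1 : ξ ∈ DA α := Submodule.sum_mem _ fun i _ => Submodule.smul_mem _ _ (hθ _)
  have m2 : ζ ∈ DA α :=
    add_mem (Submodule.sum_mem _ fun i _ => Submodule.smul_mem _ _ (hθ _)) (hθ _)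
  have key : ∀ z : Fin (l + 1) → MvPolynomial (Fin l) K, ζ + ∑ i, z i • θ i = 0 →
      a ∣ 1 + z (Fin.last l) := by
    intro z hz
    obtain ⟨c, hc⟩ := (hr (Fin.snoc y 1 + z)).1 (by
      simp only [Pi.add_apply, add_smul, sum_add_distrib]
      rw [Fin.sum_univ_castSucc]
      simpa using hz)
    exact ⟨c, by simpa [mul_comm] using congrFun hc (Fin.last l)⟩
  by_cases dv : a ∣ h
  · obtain ⟨w, rfl⟩ := dv
    refine pa.not_dvd_one ((key (Fin.snoc (fun i => w * x i) 0)
      (smul_right_injective _ a0 ?_)).trans (by simp))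
    dsimp only
    rw [Fin.sum_univ_castSucc]
    simp only [Fin.snoc_castSucc, Fin.snoc_last, zero_smul, add_zero, mul_smul, ← smul_sum, ← hξ]
    rw [smul_zero, ← r2]
    module
  · choose η hη using fun k => (pa.dvd_or_dvd (⟨-ζ k, by
      simpa [add_eq_zero_iff_eq_neg] using congrFun r2 k⟩ : a ∣ h * ξ k)).resolve_left dv
    have e1 : ξ = a • η := funext hη
    have e2 : ζ + h • η = 0 := smul_right_injective _ a0 (by
      dsimp only
      rw [smul_zero, ← r2, e1]
      module)
    have mη : η ∈ DA α := by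
      intro H
      have pH := lin_prime (h1 H).1 (h1 H).2
      have b1 := m1 H
      have b2 := neg_mem m2 H
      rw [neg_eq_of_add_eq_zero_right e2] at b2
      rw [e1] at b1
      simp only [Pi.smul_apply, smul_eq_mul, mul_assoc, ← mul_sum] at b1 b2
      by_contra nd
      exact dv ((pH.associated_of_dvd pa ((pH.dvd_or_dvd b1).resolve_right nd)).symm.dvd.trans
        ((pH.dvd_or_dvd b2).resolve_right nd))
    rw [← hs, Submodule.mem_span_range_iff_exists_fun] at mη
    obtain ⟨z, hz⟩ := mη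
    obtain ⟨c, hc⟩ := key (fun i => h * z i) (by simp only [mul_smul, ← smul_sum, hz, e2])
    have c1 : constantCoeff h = 0 := hh.coeff_eq_zero (by simpa using hd.ne)
    have c2 : constantCoeff a = 0 := ha.coeff_eq_zero (by simp)
    simpa [c1, c2] using congrArg constantCoeff hc

omit h2 in
theorem minimal (i : Fin (l + 1)) (hi : IsUnit (g i)) :
    θ i ∈ Submodule.span (MvPolynomial (Fin l) K) (θ '' {i}ᶜ) := by
  classical
  have r := rel h1 hg
  rw [← add_sum_erase _ _ (mem_univ i), add_eq_zero_iff_eq_neg] at r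
  rw [← Submodule.smul_mem_iff_of_isUnit _ hi, r, neg_mem_iff]
  exact Submodule.sum_mem _ fun j hj => Submodule.smul_mem _ _
    (Submodule.subset_span ⟨j, ne_of_mem_erase hj, rfl⟩)

end Pool.Agent.H.MP_eea557_ag
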